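import Pool.Agent.helper7.EP.SpecH

/-!
# MOD WM: coefficients of the powers of ww
-/

set_option autoImplicit false

open Finset PowerSeries

namespace Pool.Agent.EP

theorem WM : WM_stmt := by
  refine ⟨fun m M => ?_, ?_⟩
  · have h1 : ww ^ m = HahnSeries.single (-(m : ℤ)) (1 : ZMod 2) *
        HahnSeries.ofPowerSeries ℤ (ZMod 2)
          (PowerSeries.expand 24 (by norm_num) (helper81.PP ^ m)) := by
      have e1 : HahnSeries.single (-1 : ℤ) (1 : ZMod 2) ^ m =
          HahnSeries.single (-(m : ℤ)) (1 : ZMod 2) := by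
        rw [HahnSeries.single_pow]
        simp
      have e2 : HahnSeries.ofPowerSeries ℤ (ZMod 2)
          (PowerSeries.expand 24 (by norm_num) (helper81.PP ^ m)) =
          HahnSeries.ofPowerSeries ℤ (ZMod 2)
            (PowerSeries.expand 24 (by norm_num) helper81.PP) ^ m := by
        rw [map_pow (PowerSeries.expand 24 (by norm_num)), map_pow]
      unfold ww
      rw [mul_pow, e1, e2]
    have h2 : (ww ^ m).coeff M = (HahnSeries.ofPowerSeries ℤ (ZMod 2)
          (PowerSeries.expand 24 (by norm_num) (helper81.PP ^ m))).coeff (M + m) := by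
      have h3 := HahnSeries.coeff_single_mul_add (r := (1 : ZMod 2))
        (x := HahnSeries.ofPowerSeries ℤ (ZMod 2)
          (PowerSeries.expand 24 (by norm_num) (helper81.PP ^ m))) (a := M + m) (b := -(m : ℤ))
      rw [one_mul, add_neg_cancel_right] at h3
      rw [h1, h3]
    rw [h2, PowerSeries.coeff_coe, PowerSeries.coeff_expand]
    by_cases h0 : M + m < 0
    · rw [if_pos h0, if_neg]
      rintro ⟨_, h⟩
      omega
    · rw [if_neg h0]
      obtain ⟨k, hk⟩ : ∃ k : ℕ, M + m = k := ⟨(M + m).toNat, by omega⟩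
      rw [hk]
      have h4 : ((k : ℤ) / 24).toNat = k / 24 := by omega
      rw [Int.natAbs_natCast, h4]
      by_cases h5 : 24 ∣ k
      · have h6 : (24 : ℤ) ∣ k := by exact_mod_cast h5
        rw [if_pos h5, if_pos ⟨h6, Int.natCast_nonneg k⟩]
      · have h6 : ¬ (24 : ℤ) ∣ k := fun h => h5 (by exact_mod_cast h)
        rw [if_neg h5, if_neg fun h => h6 h.1]
  · unfold ww
    have h1 : HahnSeries.single (-1 : ℤ) (1 : ZMod 2) * HahnSeries.single (1 : ℤ) (1 : ZMod 2) =
        1 := by
      rw [HahnSeries.single_mul_single]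
      simp
    have h2 : HahnSeries.ofPowerSeries ℤ (ZMod 2)
          (PowerSeries.expand 24 (by norm_num) helper81.PP) *
        HahnSeries.ofPowerSeries ℤ (ZMod 2)
          (PowerSeries.expand 24 (by norm_num) helper81.EE) = 1 := by
      rw [← map_mul, ← map_mul, helper81.PP_mul_EE, map_one, map_one]
    calc _ = (HahnSeries.single (-1 : ℤ) (1 : ZMod 2) * HahnSeries.single (1 : ℤ) (1 : ZMod 2)) *
          (HahnSeries.ofPowerSeries ℤ (ZMod 2)
            (PowerSeries.expand 24 (by norm_num) helper81.PP) *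
          HahnSeries.ofPowerSeries ℤ (ZMod 2)
            (PowerSeries.expand 24 (by norm_num) helper81.EE)) := by ring
      _ = 1 := by rw [h1, h2, one_mul]

end Pool.Agent.EP
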