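import Pool.Agent.helper71.EP.SpecE

set_option autoImplicit false

open Finset
open Pool.Agent.helper74.TG

namespace Pool.Agent.EP

theorem EAB : EAB_stmt := by
  intro T c Y B hY hB
  have h1 : ∀ t ∈ Ioc 0 T, c t * (Y t : ℂ) = ∑ j ∈ range (Y T), if j < Y t then c t else 0 := by
    intro t ht
    rw [mem_Ioc] at ht
    have hle : Y t ≤ Y T := hY ht.2
    rw [← Finset.sum_filter]
    have hf : (range (Y T)).filter (fun j => j < Y t) = range (Y t) := by
      ext j
      simp only [mem_filter, mem_range]
      omega
    rw [hf, sum_const, card_range, nsmul_eq_mul, mul_comm]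
  rw [Finset.sum_congr rfl h1, Finset.sum_comm]
  have h2 : ∀ j ∈ range (Y T), ‖∑ t ∈ Ioc 0 T, (if j < Y t then c t else 0)‖ ≤ B := by
    intro j hj
    rw [mem_range] at hj
    have hex : ∃ t, j < Y t := ⟨T, hj⟩
    have hle : Nat.find hex ≤ T := Nat.find_min' hex hj
    rw [← Finset.sum_filter]
    have hf : (Ioc 0 T).filter (fun t => j < Y t) = Ioc (Nat.find hex - 1) T := by
      ext t
      simp only [mem_filter, mem_Ioc]
      constructor
      · rintro ⟨⟨h3, h4⟩, h5⟩
        have h6 := Nat.find_min' hex h5
        omega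
      · rintro ⟨h3, h4⟩
        have h5 : Nat.find hex ≤ t := by omega
        have h6 := Nat.find_spec hex
        have h7 := hY h5
        omega
    rw [hf]
    exact hB _ (by omega)
  refine (norm_sum_le _ _).trans ?_
  refine (Finset.sum_le_sum h2).trans ?_
  rw [sum_const, card_range, nsmul_eq_mul]

end Pool.Agent.EP
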