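import Pool.Agent.helper71.EP.SpecE

set_option autoImplicit false

open Finset
open Pool.Agent.helper74.TG

namespace Pool.Agent.EP

theorem EIN_add (x : ℝ) (n : ℕ) : ee (x + n) = ee x := by
  unfold ee
  have h : (2 * (Real.pi : ℂ) * ((x + n : ℝ) : ℂ) * Complex.I) =
      2 * Real.pi * x * Complex.I + n * (2 * Real.pi * Complex.I) := by
    push_cast
    ring
  rw [h, Complex.exp_add]
  have h2 : Complex.exp (n * (2 * Real.pi * Complex.I)) = 1 := by
    have := Complex.exp_nat_mul_two_pi_mul_I n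
    exact this
  rw [h2, mul_one]

theorem EIN_norm (x : ℝ) : ‖ee x‖ = 1 := by
  unfold ee
  have h : (2 * (Real.pi : ℂ) * (x : ℂ) * Complex.I) = ((2 * Real.pi * x : ℝ) : ℂ) * Complex.I := by
    push_cast
    ring
  rw [h, Complex.norm_exp_ofReal_mul_I]

theorem EIN_per (m a q t : ℕ) (hq0 : 0 < q) :
    ee ((a : ℝ) * (hq m (t + q) : ℝ) / q) = ee ((a : ℝ) * (hq m t : ℝ) / q) := by
  have hq1 : (q : ℝ) ≠ 0 := by positivity
  have h : (a : ℝ) * (hq m (t + q) : ℝ) / q =
      (a : ℝ) * (hq m t : ℝ) / q + ((a * (6 * m * t + 3 * m * q + 6) : ℕ) : ℝ) := by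
    unfold hq
    push_cast
    field_simp
    ring
  rw [h, EIN_add]

theorem EIN_shift (g : ℕ → ℂ) (q : ℕ) (h : ∀ t, g (t + q) = g t) (n : ℕ) :
    ∑ t ∈ range (n + q), g t = ∑ t ∈ range n, g t + ∑ t ∈ range q, g t := by
  induction n with
  | zero => simp
  | succ n ih =>
    rw [show n + 1 + q = (n + q) + 1 by ring, sum_range_succ, ih, h, sum_range_succ]
    ring

theorem EIN_shift' (g : ℕ → ℂ) (q : ℕ) (h : ∀ t, g (t + q) = g t) (n k : ℕ) :
    ∑ t ∈ range (n + k * q), g t = ∑ t ∈ range n, g t + k * ∑ t ∈ range q, g t := by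
  induction k with
  | zero => simp
  | succ k ih =>
    rw [show n + (k + 1) * q = (n + k * q) + q by ring, EIN_shift g q h, ih]
    push_cast
    ring

theorem EIN (h : EQG_stmt) : EIN_stmt := by
  intro m a q u v hq0 hc1 hc2 huv
  have h1 := h m a q hq0 hc1 hc2
  set f : ℕ → ℂ := fun t => ee ((a : ℝ) * (hq m t : ℝ) / q) with hf
  have hper : ∀ t, f (t + q) = f t := fun t => EIN_per m a q t hq0
  have hnorm : ∀ t, ‖f t‖ = 1 := fun t => EIN_norm _
  have hqr : (0 : ℝ) < q := by exact_mod_cast hq0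
  have hG : ‖∑ t ∈ range q, f t‖ = √(q : ℝ) := by
    rw [← h1, Real.sqrt_sq (norm_nonneg _)]
  have hIoc : ∀ v', u ≤ v' → ∑ t ∈ Ioc u v', f t = ∑ t ∈ range (v' + 1), f t - ∑ t ∈ range (u + 1), f t := by
    intro v' hv'
    rw [← Finset.sum_Ico_eq_sub _ (by omega)]
    apply Finset.sum_congr _ (fun _ _ => rfl)
    ext t
    simp only [mem_Ioc, mem_Ico]
    omega
  set k := (v - u) / q with hk
  set r := (v - u) % q with hr
  have hdm : v = u + r + k * q := by
    have := Nat.mod_add_div (v - u) q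
    have h3 : v = u + (v - u) := by omega
    rw [h3, ← this]
    simp only [hk, hr]
    rw [this]
    have h4 := Nat.mod_add_div (v - u) q
    nlinarith [h4]
  have hr1 : r < q := Nat.mod_lt _ hq0
  have key : ∑ t ∈ Ioc u v, f t = k * ∑ t ∈ range q, f t + ∑ t ∈ Ioc u (u + r), f t := by
    rw [hIoc v huv, hIoc (u + r) (by omega)]
    rw [show v + 1 = (u + r + 1) + k * q by omega, EIN_shift' f q hper]
    ring
  have hkq : (k : ℝ) ≤ ((v : ℝ) - u) / q := by
    rw [le_div_iff₀ hqr]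
    have : (v : ℝ) = u + r + k * q := by exact_mod_cast hdm
    have hr0 : (0 : ℝ) ≤ r := by positivity
    linarith
  show ‖∑ t ∈ Ioc u v, f t‖ ≤ _
  rw [key]
  refine (norm_add_le _ _).trans ?_
  apply add_le_add
  · rw [norm_mul, hG, Complex.norm_natCast]
    have hs : ((v : ℝ) - u) / √(q : ℝ) = ((v : ℝ) - u) / q * √(q : ℝ) := by
      have h5 : √(q : ℝ) * √(q : ℝ) = q := Real.mul_self_sqrt hqr.le
      have h6 : √(q : ℝ) ≠ 0 := (Real.sqrt_pos.2 hqr).ne'
      field_simp
      rw [sq, h5]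
    rw [hs]
    exact mul_le_mul_of_nonneg_right hkq (Real.sqrt_nonneg _)
  · refine (norm_sum_le _ _).trans ?_
    simp only [hnorm, sum_const, Nat.card_Ioc, nsmul_eq_mul, mul_one]
    have : u + r - u ≤ q := by omega
    exact_mod_cast this

end Pool.Agent.EP
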