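import Pool.Agent.helper71.EP.SpecE
import Pool.Agent.helper59.EP.EIN

set_option autoImplicit false

open Finset
open Pool.Agent.helper74.TG

namespace Pool.Agent.EP

theorem ERT_mono (m : ℕ) : Monotone (Yt m) := by
  intro s t hst
  unfold Yt hq
  have h1 : 3 * m * s ^ 2 + 6 * s ≤ 3 * m * t ^ 2 + 6 * t := by
    have : s ^ 2 ≤ t ^ 2 := Nat.pow_le_pow_left hst 2
    have := Nat.mul_le_mul_left (3 * m) this
    omega
  omega

theorem ERT_ee_add (x y : ℝ) : ee (x + y) = ee x * ee y := by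
  unfold ee
  rw [← Complex.exp_add]
  congr 1
  push_cast
  ring

theorem ERT (hEIN : EIN_stmt) (hEAB : EAB_stmt) : ERT_stmt := by
  intro m a q T hq0 hc1 hc2
  apply hEAB T _ (Yt m) _ (ERT_mono m)
  intro s hs
  have h1 : ∀ t ∈ Ioc s T, ee ((a : ℝ) * ((hq m t : ℝ) - 1) / q) =
      ee ((a : ℝ) * (hq m t : ℝ) / q) * ee (-(a : ℝ) / q) := by
    intro t _
    rw [← ERT_ee_add]
    congr 1
    ring
  rw [Finset.sum_congr rfl h1, ← Finset.sum_mul, norm_mul, EIN_norm, mul_one]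
  refine (hEIN m a q s T hq0 hc1 hc2 hs).trans ?_
  have hs0 : (0 : ℝ) ≤ s := by positivity
  have h2 : ((T : ℝ) - s) / √(q : ℝ) ≤ (T : ℝ) / √(q : ℝ) := by
    apply div_le_div_of_nonneg_right _ (Real.sqrt_nonneg _)
    linarith
  linarith

end Pool.Agent.EP
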